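import Pool.Agent.Results.MP_5f2860_nt.ResidueClassesAndOrbits
import Pool.Agent.U569.APL.Null

set_option autoImplicit false

/-!
# Leopoldt's conjecture for fields with parameters formed from arbitrary sets

For integers `a_1, …, a_{r₁}`, `b_1, c_1, …, b_{r₂}, c_{r₂}`, `c_k > 0`, let

  `f = ∏ (Y - a_i) ∏ ((Y - b_k)² + c_k) - 1`   (`poly x`).

`Good p x` (starting file `AlmostAllMembers`): `f` is irreducible, the field `K = ℚ[Y]/(f)` has exactly `r₁` real and `r₂`
complex places, and Leopoldt's conjecture holds for `K` and the prime `p`.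

Let a sequence (`j = 0, 1, 2, …`) of families of integral vectors with `r` coordinates be given. The vectors of the `j`-th
family are `c₀ + y`, `c₀` an arbitrary integral vector (depending on `j`, of any size) and `y` one of the following
vectors (represented by `0, …, q - 1`):

* `y` in any family of vectors modulo some `q` (depending on `j`), whose nontrivial Fourier coefficients are at most
  `1 / (Z (42 + 3 log q) ^ r)`, where `Z → ∞`, `Z ≤ q`;
* `β(x, z) + u(x) + w(z)` modulo a prime `P → ∞`, where `β : k ^ a × k ^ b → k ^ r` is bilinear, the nontrivial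
  combinations of its coordinates have rank at least `ρ`, `x` and `z` are in ARBITRARY sets `E` and `F` with
  `|E| |F| ≥ P ^ (a + b - ρ + δ)`, `u` and `w` are arbitrary functions (for `δ > 0` fixed);
* the same for `β(x, z) = x z`, `x` and `z` in ARBITRARY subsets of the field of `P ^ r` elements,
  `|E| |F| ≥ P ^ (r + δ)`;
* polynomials in `k` variables of degree at most `P ^ (δ / 4)`, all nontrivial combinations of which have a monomial with
  at least two variables, plus arbitrary functions of the single variables, on products of `k` ARBITRARY sets of at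
  least `P ^ (1 / 2 + δ)` residues;
* polynomials in one variable of degree at most `P ^ (δ / 4)`, no nontrivial combination of which is constant, on any
  subgroup of the multiplicative group modulo `P` with at least `P ^ (1 / 2 + δ)` elements.

**Theorem.** There is a set `E j` of exceptions in the `j`-th family, `|E j| = o(size)`, such that for ALL primes `p`,
ALL signatures `(r₁, r₂)` and ALL choices `σ` of `r₁ + 2 r₂` different coordinates as the parameters, for large `j` all
the vectors of the `j`-th family outside of `E j` with `c_k > 0` for all `k` are good: Leopoldt's conjecture holds at `p`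
for the field of signature `(r₁, r₂)` with these parameters.

New: the families, and that one small set of exceptions serves for all primes, signatures and choices of the
coordinates. The sets of the bad parameters at `p` meet few classes modulo large powers of `p` (starting libraries
`N924.LP`, `N918.PN`); such sets contain few members of the families by the theorem of the starting library `N384.VF`
on vectors of residues; the estimates of the Fourier coefficients on arbitrary sets are in `U569/APL`.
-/

namespace Pool.Agent.Results.MP_5f2860_nt.ArbitrarySets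

open Filter
open Pool.Agent.Results.MP_5f2860_nt.AlmostAllMembers (Ind Good)
open Pool.Agent.Results.MP_5f2860_nt.ResidueClassesAndOrbits (Bad pnull_bad)
open Pool.Agent.N918.PN (PNull PNull.pull)
open Pool.Agent.U569.APL

theorem null_of_pnull {ι : Type} [Fintype ι] [DecidableEq ι] {p : ℕ} (hp : 0 < p) {B : Set (ι → ℤ)}
    (h : PNull p B) : Null B := by
  intro ε hε
  obtain ⟨k, hk⟩ := h ε hε
  have hpk : 0 < p ^ k := pow_pos hp k
  have hr : (0 : ℝ) < ((p ^ k : ℕ) : ℝ) := by exact_mod_cast hpk
  refine ⟨p ^ k, hpk, ?_⟩
  unfold Pool.Agent.N666.TM.dens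
  rw [div_le_iff₀ (by positivity)]
  exact hk

theorem result (ι : Type) [Fintype ι] :
    (∀ (τ : ℕ → Type) (s : ∀ j, Finset (τ j)) (v : ∀ j, τ j → ι → ℤ), FlatFamilies s v →
      ∃ E : ∀ j, Finset (τ j), Small s E ∧
        ∀ (p : ℕ) [Fact p.Prime] (r₁ r₂ : ℕ), 1 ≤ r₁ + r₂ → ∀ σ : Ind r₁ r₂ → ι, Function.Injective σ →
          Outside s E v fun c => (∀ k, 0 < c (σ (Sum.inr (Sum.inr k)))) → Good p (fun i => c (σ i))) ∧
    Examples ι := by
  classical
  refine ⟨fun τ s v hs => ?_, examples _⟩
  obtain ⟨E, hE, h2⟩ := flat_diag_null hs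
    (fun x : (Σ rr : ℕ × ℕ, ℕ × (Ind rr.1 rr.2 → ι)) =>
      {c : ι → ℤ | ∃ hp : x.2.1.Prime, 1 ≤ x.1.1 + x.1.2 ∧ Function.Injective x.2.2 ∧
        (∀ k, 0 < c (x.2.2 (Sum.inr (Sum.inr k)))) ∧
        ¬ @Good x.2.1 ⟨hp⟩ x.1.1 x.1.2 (fun i => c (x.2.2 i))}) (by
      rintro ⟨⟨r₁, r₂⟩, p, σ⟩
      by_cases h : p.Prime ∧ 1 ≤ r₁ + r₂ ∧ Function.Injective σ
      · have hp : Fact p.Prime := ⟨h.1⟩
        refine null_mono ?_ (null_of_pnull h.1.pos ((pnull_bad p r₁ r₂ h.2.1).pull h.1.pos σ h.2.2))
        rintro c ⟨_, _, _, h3, h4⟩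
        exact ⟨h3, h4⟩
      · refine null_mono (B' := ∅) ?_ ?_
        · rintro c ⟨h3, h4, h5, -⟩
          exact absurd ⟨h3, h4, h5⟩ h
        · intro ε hε
          refine ⟨1, le_rfl, ?_⟩
          unfold Pool.Agent.N666.TM.dens
          simpa using hε.le)
  refine ⟨E, hE, fun p hp r₁ r₂ hr σ hσ => ?_⟩
  have h1 := h2 ⟨(r₁, r₂), p, σ⟩
  filter_upwards [h1] with j hj i hi hi2 hc
  by_contra hg
  exact hj i hi hi2 ⟨hp.out, hr, hσ, hc, hg⟩

end Pool.Agent.Results.MP_5f2860_nt.ArbitrarySets
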