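import Mathlib
import Pool.Agent.U332.LC.P

/-! # Leopoldt's conjecture for Galois closures with the groups `S_3`, `D_4` and `S_4`

Let `K` be a number field. We attach to `K` fields `H`, normal over `ℚ`, for which Leopoldt's conjecture
is equivalent to the conjecture for `K`:

(a) the Galois closure `H` of `K`, if `[K:ℚ] ≤ 3`, or if `[K:ℚ] = 4` and `K` has two real places and
one complex place or an automorphism of order two (that is, a quadratic subfield);
(b) the splitting fields `H` of all the quartic polynomials without real roots whose cubic resolvent is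
irreducible and has the root field `K`, that is, all the totally complex fields `H` with Galois group
`A_4` or `S_4` and cubic subfield `K`.

The conjecture for `K` is known for the members `K_t` of the families

  `f_t = ∏ (Y - a_i t) ∏ ((Y - b_k t)² + c_k t²) - 1`

(for one prime and all but finitely many `t`; for all primes below a bound, outside a small set of
`t`). So the conjecture follows for all the fields attached to `K_t`, for example for the splitting fields
of `(Y - a_1 t) (Y - a_2 t) (Y - a_3 t) - 1` (totally real, group `S_3` or, possibly, cyclic),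
`(Y² - a_1² t²) (Y² - a_2² t²) - 1` (totally real, dihedral group of order 8),
`(Y - a_1 t) (Y - a_2 t) ((Y - b t)² + c t²) - 1` (totally complex, order 24 or 8), and
`Y⁴ - 2 (b + b') t Y² - 8 Y + (b - b')² t²`, `b < 0 < b'` (totally complex, group `A_4` or `S_4`).

Proof. The space `R` of the relations between the logarithms of the units of `H`, a subspace of
`ℂ_p ⊗ 𝓞_H^×`, is stable under `G = Gal(H/ℚ)`. For a subgroup `S` of `G` the sum `N_S` of its elements
is zero on `R` if Leopoldt's conjecture holds for the fixed field of `S`; so this is the case for the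
conjugates of `K` and for fields with units of rank at most one. If `E/F` is a quadratic extension inside
`H`, the rank of the units of `E` is at most one larger than the rank of the units of `F`, and the
conjecture holds for `F`, then the sum for `E` is also zero on `R`, since a relation in the part of rank
one would be a relation `c log u = 0`. In the cases (a) and (b) the identity is a rational combination of
such sums (for `S_4`: `24 = - 5 N(S_4) + 2 N(A_4) - ∑ N(D_4) + 3 ∑ N(S_3) + 6 ∑ N(C_4)`), so `R = 0`. -/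

namespace Pool.Agent.Results.MP_5f2860_nt.GaloisClosures

open NumberField Module Polynomial Filter Topology
open Pool.Agent.U332.LC (ratPoly Small)

/-- Leopoldt's conjecture for the number field `K` and the prime `p`: units of `K` congruent to `1`
at all primes above `p` which are multiplicatively independent over `ℤ` stay independent over
`ℤ_p` in the product of the completions above `p`. -/
def Leopoldt (K : Type) [Field K] [NumberField K] (p : ℕ) [Fact p.Prime] : Prop :=
  ∀ (n : ℕ) (ε : Fin n → (𝓞 K)ˣ),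
    (∀ i, ((ε i : 𝓞 K) - 1) ∈ (Ideal.span {((p : ℕ) : 𝓞 K)}).radical) →
    (∀ c : Fin n → ℤ, ∏ i, ε i ^ c i = 1 → c = 0) →
    ∀ (a : Fin n → PadicInt p) (m : ℕ → Fin n → ℤ),
      (∀ i, Tendsto (fun k => ((m k i : ℤ) : PadicInt p)) atTop (𝓝 (a i))) →
      (∀ N : ℕ, ∀ᶠ k in atTop,
        ((p : ℕ) : 𝓞 K) ^ N ∣ (((∏ i, ε i ^ m k i : (𝓞 K)ˣ) : 𝓞 K) - 1)) →
      a = 0

/-- `K` is generated by a root of `q`. -/
def RootField (K : Type) [Field K] [NumberField K] (q : ℚ[X]) : Prop :=
  ∃ θ : K, aeval θ q = 0 ∧ IntermediateField.adjoin ℚ {θ} = ⊤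

/-- `[K:ℚ] ≤ 3`, or `[K:ℚ] = 4` and `K` has exactly two real places or an automorphism of order two. -/
def Covered (K : Type) [Field K] [NumberField K] : Prop :=
  finrank ℚ K ≤ 3 ∨ finrank ℚ K = 4 ∧
    (InfinitePlace.nrRealPlaces K = 2 ∨ ∃ ι : K ≃ₐ[ℚ] K, ι ≠ 1 ∧ ι * ι = 1)

/-- The cubic resolvent of `Y⁴ + u Y² + v Y + w`. -/
noncomputable def resolvent (u v w : ℚ) : ℚ[X] :=
  X ^ 3 - C u * X ^ 2 - C (4 * w) * X + C (4 * u * w - v ^ 2)

/-- The splitting field of `q` is attached to `K`: either `q` is irreducible with the root field `K`,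
as in `Covered`; or `q = Y⁴ + u Y² + v Y + w` has no real roots, and its cubic resolvent is
irreducible with the root field `K`. -/
def Attached (K : Type) [Field K] [NumberField K] (q : ℚ[X]) : Prop :=
  (Irreducible q ∧ RootField K q ∧ Covered K) ∨
  ∃ u v w : ℚ, q = X ^ 4 + C u * X ^ 2 + C v * X + C w ∧ (∀ x : ℝ, aeval x q ≠ 0) ∧
    Irreducible (resolvent u v w) ∧ RootField K (resolvent u v w)

/-- The polynomial `f_t = ∏ (Y - a_i t) ∏ ((Y - b_k t)² + c_k t²) - 1`. -/
noncomputable def member {r₁ r₂ : ℕ} (a : Fin r₁ → ℤ) (b c : Fin r₂ → ℤ) (t : ℤ) : ℚ[X] :=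
  (∏ i, (X - C ((a i * t : ℤ) : ℚ))) *
    (∏ k, ((X - C ((b k * t : ℤ) : ℚ)) ^ 2 + C ((c k * t ^ 2 : ℤ) : ℚ))) - 1

/-- The parameters of a family: distinct `a_i`, distinct pairs `(b_k, c_k)`, `c_k > 0`. -/
def Parameters {r₁ r₂ : ℕ} (a : Fin r₁ → ℤ) (b c : Fin r₂ → ℤ) : Prop :=
  1 ≤ r₁ + r₂ ∧ Function.Injective a ∧ Function.Injective (fun k => (b k, c k)) ∧ ∀ k, 0 < c k

theorem member_eq {r₁ r₂ : ℕ} (a : Fin r₁ → ℤ) (b c : Fin r₂ → ℤ) (t : ℤ) :
    ratPoly (Pool.Agent.H33R4.spec t (Pool.Agent.H33R4.fam a b c)) = member a b c t := by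
  unfold ratPoly member Pool.Agent.H33R4.fam Pool.Agent.H33R4.spec
  rw [Polynomial.map_sub, Polynomial.map_sub, Polynomial.map_one, Polynomial.map_one,
    Polynomial.map_prod, Polynomial.map_prod, Fintype.prod_sum_type]
  congr 2
  · refine Finset.prod_congr rfl fun i _ => ?_
    simp [Pool.Agent.H33R4.fac]
  · refine Finset.prod_congr rfl fun i _ => ?_
    simp [Pool.Agent.H33R4.fac]

theorem attached_iff {K : Type} [Field K] [NumberField K] {q : ℚ[X]} (hq : Attached K q)
    (H : Type) [Field H] [NumberField H] [hH : IsSplittingField ℚ H q] (p : ℕ) [Fact p.Prime] :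
    Leopoldt H p ↔ Leopoldt K p := by
  rcases hq with ⟨hirr, ⟨θ, hθ, hgen⟩, hK⟩ | ⟨u, v, w, rfl, hreal, hirr, β, hβ, hgen⟩
  · refine Pool.Agent.U332.LC.reduction q hirr θ hθ hgen H ?_ p
    have h1 := Pool.Agent.U332.LC.finrank_eq θ hgen q hirr hθ
    unfold Covered at hK
    rw [h1] at hK
    exact hK
  · have hH' : IsSplittingField ℚ H (Pool.Agent.U332.LC.quartic u v w) := hH
    exact Pool.Agent.U332.LC.resolvent_reduction u v w hreal hirr β hβ hgen H p

/-- **Leopoldt's conjecture for Galois closures.**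

1. If the splitting field `H` of `q` is attached to `K`, then for every prime `p` Leopoldt's
conjecture holds for `H` and `p` if and only if it holds for `K` and `p`.

2. Let `f_t` be one of the families. For every prime `p` and all but finitely many `t`, Leopoldt's
conjecture holds for `p` and all the fields `H` attached to the root field of `f_t`. Moreover there are a
polynomial `Δ ≠ 0` and a number `C₀` such that for all `P` and all `t` outside a set of at most
`C₀ + (r₁ + r₂ - 1)² P²` integers, Leopoldt's conjecture holds for all the fields `H` attached to the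
root field of `f_t` and all the primes `p ≤ P` which do not divide `Δ(t)`.

3. Let `deg f_t ≤ 3`, or `r₁ = 2` and `r₂ = 1`, or `r₁ = 4`, `r₂ = 0` and
`{a_1, …, a_4} = {± a_1, ± a_2}`. For all but finitely many `t` the splitting field `H` of `f_t` is
attached to the root field of `f_t`, and if `deg f_t ≥ 3`, then `[H:ℚ] > deg f_t` (so `H` is not abelian
over `ℚ`).

4. Let `b < 0 < b'`. For all but finitely many `t` the splitting field `H` of
`Y⁴ - 2 (b + b') t Y² - 8 Y + (b - b')² t²` is attached to the root field of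
`Y (Y - b t) (Y - b' t) - 1`, and `12` divides `[H:ℚ]`. -/
theorem result :
    (∀ (K : Type) [Field K] [NumberField K] (q : ℚ[X]), Attached K q →
      ∀ (H : Type) [Field H] [NumberField H] [IsSplittingField ℚ H q] (p : ℕ) [Fact p.Prime],
        Leopoldt H p ↔ Leopoldt K p) ∧
    (∀ (r₁ r₂ : ℕ) (a : Fin r₁ → ℤ) (b c : Fin r₂ → ℤ), Parameters a b c →
      (∀ (p : ℕ) [Fact p.Prime], ∃ S : Finset ℤ, ∀ t ∉ S,
        ∀ (K : Type) [Field K] [NumberField K] (q : ℚ[X]), RootField K (member a b c t) →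
        Attached K q → ∀ (H : Type) [Field H] [NumberField H] [IsSplittingField ℚ H q],
          Leopoldt H p) ∧
      ∃ (Δ : ℤ[X]) (C₀ : ℕ), Δ ≠ 0 ∧ ∀ P : ℕ, ∃ S : Finset ℤ,
        S.card ≤ C₀ + (r₁ + r₂ - 1) ^ 2 * P ^ 2 ∧ ∀ t ∉ S,
        ∀ (K : Type) [Field K] [NumberField K] (q : ℚ[X]), RootField K (member a b c t) →
        Attached K q → ∀ (H : Type) [Field H] [NumberField H] [IsSplittingField ℚ H q]
          (p : ℕ) [Fact p.Prime], p ≤ P → ¬ (p : ℤ) ∣ Δ.eval t → Leopoldt H p) ∧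
    (∀ (r₁ r₂ : ℕ) (a : Fin r₁ → ℤ) (b c : Fin r₂ → ℤ), Parameters a b c →
      (r₁ + 2 * r₂ ≤ 3 ∨ (r₁ = 2 ∧ r₂ = 1) ∨ (r₁ = 4 ∧ r₂ = 0 ∧ ∀ i, ∃ j, a j = -a i)) →
      ∃ S : Finset ℤ, ∀ t ∉ S,
        (∀ (K : Type) [Field K] [NumberField K], RootField K (member a b c t) →
          Attached K (member a b c t)) ∧
        ∀ (H : Type) [Field H] [NumberField H] [IsSplittingField ℚ H (member a b c t)],
          3 ≤ r₁ + 2 * r₂ → r₁ + 2 * r₂ < finrank ℚ H) ∧
    (∀ b b' : ℤ, b < 0 → 0 < b' → ∃ S : Finset ℤ, ∀ t ∉ S,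
      (∀ (K : Type) [Field K] [NumberField K],
        RootField K (member ![0, b, b'] (r₂ := 0) ![] ![] t) →
        Attached K (X ^ 4 + C ((-2 * (b + b') * t : ℤ) : ℚ) * X ^ 2 + C (-8) * X +
          C (((b - b') ^ 2 * t ^ 2 : ℤ) : ℚ))) ∧
      ∀ (H : Type) [Field H] [NumberField H] [IsSplittingField ℚ H
        (X ^ 4 + C ((-2 * (b + b') * t : ℤ) : ℚ) * X ^ 2 + C (-8) * X +
          C (((b - b') ^ 2 * t ^ 2 : ℤ) : ℚ))], 12 ∣ finrank ℚ H) := by
  refine ⟨?_, ?_, ?_, ?_⟩
  · intro K _ _ q hq H _ _ _ p _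
    exact attached_iff hq H p
  · rintro r₁ r₂ a b c ⟨h, ha, hbc, hc⟩
    constructor
    · intro p _
      obtain ⟨S, hS⟩ := Pool.Agent.H33R4.explicit p r₁ r₂ h a b c ha hbc hc
      refine ⟨S, fun t ht K _ _ q hroot hq H _ _ _ => ?_⟩
      obtain ⟨θ, hθ, hgen⟩ := hroot
      rw [← member_eq, Pool.Agent.U332.LC.ratPoly_aeval] at hθ
      exact (attached_iff hq H p).2 ((hS t ht).2 K θ hθ hgen).2.2
    · obtain ⟨Δ, C₀, hΔ, hmain⟩ := Pool.Agent.R89.UP.main r₁ r₂ h a b c ha hbc hc
      refine ⟨Δ, C₀, hΔ, fun P => ?_⟩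
      obtain ⟨S, hS1, hS2⟩ := hmain P
      refine ⟨S, hS1, fun t ht K _ _ q hroot hq H _ _ _ p _ hp hnd => ?_⟩
      obtain ⟨θ, hθ, hgen⟩ := hroot
      rw [← member_eq, Pool.Agent.U332.LC.ratPoly_aeval] at hθ
      exact (attached_iff hq H p).2 (((hS2 t ht).2 K θ hθ hgen).2.2 p hp hnd)
  · rintro r₁ r₂ a b c ⟨h, ha, hbc, hc⟩ hs
    have _ : Fact (Nat.Prime 2) := ⟨Nat.prime_two⟩
    obtain ⟨S, hS⟩ := Pool.Agent.H33R4.explicit 2 r₁ r₂ h a b c ha hbc hc
    have hbig : ∃ N : ℤ, ∀ t : ℤ, N < |t| → 3 ≤ r₁ + 2 * r₂ →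
        Irreducible (Pool.Agent.H33R4.spec t (Pool.Agent.H33R4.fam a b c)) →
        (∀ (K : Type) [Field K] [NumberField K] (θ : K),
          aeval θ (Pool.Agent.H33R4.spec t (Pool.Agent.H33R4.fam a b c)) = 0 →
          IntermediateField.adjoin ℚ {θ} = ⊤ →
          InfinitePlace.nrRealPlaces K = r₁ ∧ InfinitePlace.nrComplexPlaces K = r₂) →
        ∀ (H : Type) [Field H] [NumberField H]
          [IsSplittingField ℚ H (ratPoly (Pool.Agent.H33R4.spec t
            (Pool.Agent.H33R4.fam a b c)))], r₁ + 2 * r₂ < finrank ℚ H := by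
      by_cases h3 : 3 ≤ r₁ + 2 * r₂
      · obtain ⟨N, hN⟩ := Pool.Agent.U332.LC.family_big r₁ r₂ h a b c ha hs h3
        exact ⟨N, fun t ht _ => hN t ht⟩
      · exact ⟨0, fun t _ h => absurd h h3⟩
    obtain ⟨N, hN⟩ := hbig
    refine ⟨S ∪ Finset.Icc (-N) N, fun t ht => ?_⟩
    rw [Finset.mem_union, not_or, Finset.mem_Icc, ← abs_le, not_le] at ht
    obtain ⟨hirr, hK⟩ := hS t ht.1
    constructor
    · intro K _ _ hroot
      refine Or.inl ⟨?_, hroot, ?_⟩
      · rw [← member_eq]
        exact Pool.Agent.U332.LC.ratPoly_irr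
          ((Pool.Agent.H33R4.fam_monic a b c h).map _) hirr
      · obtain ⟨θ, hθ, hgen⟩ := hroot
        rw [← member_eq, Pool.Agent.U332.LC.ratPoly_aeval] at hθ
        obtain ⟨h1, h2, -⟩ := hK K θ hθ hgen
        exact Pool.Agent.U332.LC.family_covered r₁ r₂ h a b c ha hs t hirr θ hθ hgen h1 h2
    · intro H _ _ hH h3
      rw [← member_eq] at hH
      exact hN t ht.2 h3 hirr
        (fun K _ _ θ hθ hgen => ⟨(hK K θ hθ hgen).1, (hK K θ hθ hgen).2.1⟩) H
  · intro b b' hb hb'
    have _ : Fact (Nat.Prime 2) := ⟨Nat.prime_two⟩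
    have hinj : Function.Injective ![0, b, b'] := by
      intro i j hij
      fin_cases i <;> fin_cases j <;> simp at hij ⊢ <;> omega
    obtain ⟨S, hS⟩ := Pool.Agent.H33R4.explicit 2 3 0 (by norm_num) ![0, b, b'] ![] ![] hinj
      (fun i => i.elim0) (fun i => i.elim0)
    refine ⟨S ∪ Finset.Icc (-(8 * |b + b'| + 3)) (8 * |b + b'| + 3), fun t ht => ?_⟩
    rw [Finset.mem_union, not_or, Finset.mem_Icc, ← abs_le, not_le] at ht
    obtain ⟨hirr, hK⟩ := hS t ht.1
    have hreal := Pool.Agent.U332.LC.no_real b b' hb hb' t ht.2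
    have hatt : ∀ (K : Type) [Field K] [NumberField K],
        RootField K (member ![0, b, b'] (r₂ := 0) ![] ![] t) →
        Irreducible (resolvent ((-2 * (b + b') * t : ℤ) : ℚ) (-8)
          (((b - b') ^ 2 * t ^ 2 : ℤ) : ℚ)) ∧
        RootField K (resolvent ((-2 * (b + b') * t : ℤ) : ℚ) (-8)
          (((b - b') ^ 2 * t ^ 2 : ℤ) : ℚ)) := by
      intro K _ _ hroot
      obtain ⟨θ, hθ, hgen⟩ := hroot
      rw [← member_eq, Pool.Agent.U332.LC.ratPoly_aeval] at hθ
      exact Pool.Agent.U332.LC.attached24 b b' ![] ![] t hirr θ hθ hgen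
    constructor
    · intro K _ _ hroot
      exact Or.inr ⟨_, _, _, rfl, hreal, (hatt K hroot).1, (hatt K hroot).2⟩
    · intro H _ _ hH
      have hirr0 := Pool.Agent.U332.LC.ratPoly_irr
        ((Pool.Agent.H33R4.fam_monic ![0, b, b'] ![] ![] (by norm_num)).map _) hirr
      obtain ⟨K, _, _, θ, hθ1, hgen⟩ := Pool.Agent.U332.LC.exists_field _ hirr0
      have h1 := hatt K ⟨θ, by rw [← member_eq]; exact hθ1, hgen⟩
      have hH' : IsSplittingField ℚ H (Pool.Agent.U332.LC.quartic
        ((-2 * (b + b') * t : ℤ) : ℚ) (-8) (((b - b') ^ 2 * t ^ 2 : ℤ) : ℚ)) := hH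
      exact Pool.Agent.U332.LC.twelve _ _ _ hreal h1.1 H

end Pool.Agent.Results.MP_5f2860_nt.GaloisClosures
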