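import Pool.Agent.Results.MP_5f2860_nt.ResidueClassesAndOrbits
import Pool.Agent.U125.NO.Seq

/-!
# Leopoldt's conjecture along every normal orbit of parameters, for the families with `r₁ + 2 r₂` parameters

For integers `a_1, …, a_{r₁}`, `b_1, c_1, …, b_{r₂}`, `c_{r₂}`, `c_k > 0`, let

  `f = ∏ (Y - a_i) ∏ ((Y - b_k)² + c_k) - 1`,

a polynomial of degree `n = r₁ + 2 r₂` which depends on `n` free parameters, and let `K = ℚ[Y]/(f)`. `Good p x` (starting
result `AlmostAllMembers`): `f` is irreducible, `K` has exactly `r₁` real and `r₂` complex places, and Leopoldt's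
conjecture holds for `K` and the prime `p`.

**Theorem.** Let `x_0, x_1, …` be a normal orbit in `ℤ^κ` (`NormalOrbit`): the orbit of an integral vector
under a finite family of integral affine maps along ANY normal sequence of indices, the family being wide
(for all `q` prime to some `q₀` the maps are bijective modulo `q`, and the vector can be moved to at least the
proportion `ε > 0`, not depending on `q`, of all vectors modulo `q`). There are a number `q₀ > 0` and ONE set `E` of
times of density zero such that for ALL primes `p` that do not divide `q₀`, ALL signatures `(r₁, r₂)` and ALL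
injective choices `σ` of coordinates of the orbit as the parameters: Leopoldt's conjecture holds for `p` and the
field `K` given by the parameters at the time `n` (`Good p`), for all but finitely many of the times `n ∉ E` at
which the parameters `c_k` are positive.

Examples (second part): (1) `x_n = (⌊b ^ n ξ_l⌋)_l` for ANY vector `ξ` of real numbers which is normal to the
base `b ≥ 2`; (2) the orbit of any vector `v ≠ 0` along ANY normal word in matrices which generate the special
linear group modulo all `q` prime to some `q₀` (generators of a thin group); (3) vectors of integers whose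
digits are chosen from a restricted set of vectors.

The starting result `ResidueClassesAndOrbits` has the orbits of thin groups for ALMOST ALL words and metric
sequences for almost all real numbers; the condition on the words is explicit here, and the fields are
determined by, for example, the digits of one normal number.

Proof. The bad vectors are contained in few residue classes modulo powers of `p` (`PNull`, starting library).
Every orbit along a normal sequence of indices is equidistributed in a large set of classes modulo `p ^ k`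
(engine `Pool.Agent.U125.NO` of helper125).
-/

set_option autoImplicit false

namespace Pool.Agent.Results.MP_5f2860_nt.NormalSequences

open Filter Topology
open Pool.Agent.Results.MP_5f2860_nt.AlmostAllMembers (Ind Good)
open Pool.Agent.Results.MP_5f2860_nt.ResidueClassesAndOrbits (pnull_bad)
open Pool.Agent.N918.PN (PNull PNull.pull)
open Pool.Agent.U125.NO (NormalOrbit Examples examples nul_countable)

/-- The set `E` of natural numbers has density zero. -/
def Null (E : Set ℕ) : Prop :=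
  Tendsto (fun N : ℕ => (({m : ℕ | m < N ∧ m ∈ E}.ncard : ℕ) : ℝ) / (N : ℝ)) atTop (𝓝 0)

/-- A normal orbit is rarely in a set which is small modulo powers of `p`, for all `p` outside of a finite set. -/
theorem rarely {κ : Type} [Fintype κ] [DecidableEq κ] {x : ℕ → κ → ℤ} (hx : NormalOrbit x) :
    ∃ q₀ : ℕ, 0 < q₀ ∧ ∀ p : ℕ, p.Prime → ¬ p ∣ q₀ → ∀ B : Set (κ → ℤ), PNull p B →
      Null {n : ℕ | x n ∈ B} := by
  obtain ⟨q₀, hq₀, c, hc, h⟩ := hx.upper
  refine ⟨q₀, hq₀, fun p hp hpq B hB => ?_⟩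
  unfold Null
  rw [tendsto_order]
  constructor
  · intro a ha
    exact Eventually.of_forall fun N => lt_of_lt_of_le ha (by positivity)
  · intro a ha
    obtain ⟨k, hk⟩ := hB (c * (a / 3)) (by positivity)
    have h1 := h (p ^ k) (pow_pos hp.pos k)
      (Nat.Coprime.pow_left k ((Nat.Prime.coprime_iff_not_dvd hp).2 hpq)) (fun v => v ∈ B)
      (c * (a / 3)) (by positivity) hk (a / 3) (by positivity)
    filter_upwards [h1] with N hN
    have h2 : c * (a / 3) / c = a / 3 := by field_simp
    rw [h2] at hN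
    have h3 : (({m : ℕ | m < N ∧ m ∈ {n : ℕ | x n ∈ B}}.ncard : ℕ) : ℝ) / (N : ℝ) ≤ a / 3 + a / 3 := hN
    linarith

/-- Primes, signatures and choices of coordinates. -/
def Cond (κ : Type) : Type :=
  Nat.Primes × Σ r : ℕ × ℕ, {σ : Ind r.1 r.2 → κ // 1 ≤ r.1 + r.2 ∧ Function.Injective σ}

instance (κ : Type) [Finite κ] : Countable (Cond κ) := by
  unfold Cond
  infer_instance

/-- The vectors whose coordinates `σ i` are exceptional parameters for `p`. -/
def BadAt (p : ℕ) [Fact p.Prime] {κ : Type} {r₁ r₂ : ℕ} (σ : Ind r₁ r₂ → κ) : Set (κ → ℤ) :=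
  {v : κ → ℤ | (fun i => v (σ i)) ∈ {y : Ind r₁ r₂ → ℤ | (∀ k, 0 < y (Sum.inr (Sum.inr k))) ∧ ¬ Good p y}}

theorem pnull_badAt (p : ℕ) [hp : Fact p.Prime] {κ : Type} [Fintype κ] {r₁ r₂ : ℕ} (hr : 1 ≤ r₁ + r₂)
    (σ : Ind r₁ r₂ → κ) (hσ : Function.Injective σ) : PNull p (BadAt p σ) :=
  (pnull_bad p r₁ r₂ hr).pull hp.out.pos σ hσ

theorem mem_badAt (p : ℕ) [Fact p.Prime] {κ : Type} {r₁ r₂ : ℕ} (σ : Ind r₁ r₂ → κ) (v : κ → ℤ)
    (h1 : ∀ k, 0 < v (σ (Sum.inr (Sum.inr k)))) (h2 : ¬ Good p (fun i => v (σ i))) :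
    v ∈ BadAt p σ := ⟨h1, h2⟩

theorem result :
    (∀ (κ : Type) [Fintype κ] [DecidableEq κ] (x : ℕ → κ → ℤ), NormalOrbit x →
      ∃ q₀ : ℕ, 0 < q₀ ∧ ∃ E : Set ℕ, Null E ∧ ∀ (p : ℕ) [Fact p.Prime], ¬ p ∣ q₀ →
        ∀ r₁ r₂ : ℕ, 1 ≤ r₁ + r₂ → ∀ σ : Ind r₁ r₂ → κ, Function.Injective σ →
          {n : ℕ | n ∉ E ∧ (∀ k, 0 < x n (σ (Sum.inr (Sum.inr k)))) ∧
            ¬ Good p (fun i => x n (σ i))}.Finite) ∧
    ∀ (κ : Type) [Fintype κ] [DecidableEq κ], Examples κ := by
  refine ⟨?_, fun κ _ _ => examples κ⟩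
  intro κ _ _ x hx
  obtain ⟨q₀, hq₀, hr⟩ := rarely hx
  obtain ⟨E, hE1, hE2⟩ := nul_countable (K := {a : Cond κ // ¬ (a.1 : ℕ) ∣ q₀})
    (fun a => {n : ℕ | x n ∈ @BadAt (a.1.1 : ℕ) ⟨a.1.1.2⟩ κ a.1.2.1.1 a.1.2.1.2 a.1.2.2.1})
    (fun a => hr (a.1.1 : ℕ) a.1.1.2 a.2 (@BadAt (a.1.1 : ℕ) ⟨a.1.1.2⟩ κ a.1.2.1.1 a.1.2.1.2 a.1.2.2.1)
      (@pnull_badAt (a.1.1 : ℕ) ⟨a.1.1.2⟩ κ _ a.1.2.1.1 a.1.2.1.2 a.1.2.2.2.1 a.1.2.2.1 a.1.2.2.2.2))
  refine ⟨q₀, hq₀, E, hE1, fun p hp hpq r₁ r₂ hr12 σ hσ => ?_⟩
  refine (hE2 ⟨(⟨p, hp.out⟩, ⟨(r₁, r₂), σ, hr12, hσ⟩), hpq⟩).subset ?_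
  rintro n ⟨hn, hn2, hn3⟩
  exact ⟨mem_badAt p σ (x n) hn2 hn3, hn⟩

end Pool.Agent.Results.MP_5f2860_nt.NormalSequences
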