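import Mathlib
import Pool.Agent.U332.LC.Q7
import Pool.Agent.U332.LC.H

/-! # Leopoldt's conjecture for quadratic extensions with few real places

Let `K` be a totally real number field of degree `n` and `E/K` a quadratic extension in which exactly
`m` of the `n` real places of `K` are unramified, so that `E` has `2 m` real and `n - m` complex places.
If

  `m (m - 1) gcd(m, n) < n`

then Leopoldt's conjecture for `E` is equivalent to Leopoldt's conjecture for `K`, for every prime `p`.
For `m = 0` these are the CM fields, for `m = 1` the extensions with exactly two real places; for `n = 3` all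
quadratic extensions are covered except the totally real ones; for prime `n` the condition is
`m (m - 1) < n`. The equivalence also holds for quadratic extensions of relative unit rank at most one
of arbitrary number fields (for example totally complex quadratic extensions of fields with one complex
place), and for all extensions with an elementary abelian `2`-group all of whose quadratic
subextensions are of these types.

Leopoldt's conjecture is known (starting files) for the members `K_t` of the families

  `f_t = ∏ (Y - a_i t) ∏ ((Y - b_k t)² + c_k t²) - 1`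

of every signature (for one prime and all but finitely many `t`; for all primes below a bound, outside
a small set of `t`). So it follows for all these extensions of the fields `K_t`: infinitely many fields
`E` of degree `2 n` for each `t`, in every degree. For example it holds for one prime `p` and all
but finitely many `t`, for ALL quadratic extensions, not totally real, of the totally real cubic
field `K_t`.

Proof. Let `x` be a relation between the `p`-adic logarithms of the units of `E`. The norm of `x` to
`K` vanishes, so `x` is in the minus part, which has rank `m` (the relative unit rank), and the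
coordinates of `x` span a space over `ℚ̄` of dimension at most `m`. Two embeddings `σ, σ'` of `K` in `ℂ_p` are
in the same class if the conjugates of the quadratic character of `E/K` by `σ` and `σ'` are equal on the
absolute Galois group of the Galois closure of `K`. All classes have the same size `b` since the
automorphisms of `ℂ_p` are transitive on the embeddings of `K`, and complex conjugation shows that the
`m` unramified real places are a union of classes; so `b` divides `gcd(m, n)`, and there are `n / b` embeddings
with different characters. The conjugates of `x` by these are independent relations with coefficients in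
the same space of dimension at most `m`, so `n / b ≤ m (m - 1)` by the `p`-adic form of the theorem of
Waldschmidt and Roy on hyperplanes (`main_ineq`, the inequality of the starting file `MonomialCharacters`),
if `x ≠ 0`. For elementary abelian `2`-extensions the identity is a rational combination of norms to
quadratic subextensions. -/

namespace Pool.Agent.Results.MP_5f2860_nt.QuadraticExtensions

open NumberField Module Polynomial Filter Topology
open Pool.Agent.U332.LC (ratPoly)

/-- Leopoldt's conjecture for the number field `K` and the prime `p`: units of `K` congruent to `1`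
at all primes above `p` which are multiplicatively independent over `ℤ` stay independent over
`ℤ_p` in the product of the completions above `p`. -/
def Leopoldt (K : Type) [Field K] [NumberField K] (p : ℕ) [Fact p.Prime] : Prop :=
  ∀ (n : ℕ) (ε : Fin n → (𝓞 K)ˣ),
    (∀ i, ((ε i : 𝓞 K) - 1) ∈ (Ideal.span {((p : ℕ) : 𝓞 K)}).radical) →
    (∀ c : Fin n → ℤ, ∏ i, ε i ^ c i = 1 → c = 0) →
    ∀ (a : Fin n → PadicInt p) (m : ℕ → Fin n → ℤ),
      (∀ i, Tendsto (fun k => ((m k i : ℤ) : PadicInt p)) atTop (𝓝 (a i))) →
      (∀ N : ℕ, ∀ᶠ k in atTop,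
        ((p : ℕ) : 𝓞 K) ^ N ∣ (((∏ i, ε i ^ m k i : (𝓞 K)ˣ) : 𝓞 K) - 1)) →
      a = 0

/-- The quadratic extension `F` of `K` has few real places: either the unit rank of `F` is at most one
larger than the unit rank of `K`; or `K` is totally real of degree `n`, `F` has `2 m` real places (that
is, `m` real places of `K` are unramified in `F`), and `m (m - 1) gcd(m, n) < n`. -/
def FewReal (K F : Type) [Field K] [NumberField K] [Field F] [NumberField F] : Prop :=
  Units.rank F ≤ Units.rank K + 1 ∨
  IsTotallyReal K ∧ ∃ m : ℕ, InfinitePlace.nrRealPlaces F = 2 * m ∧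
    m * (m - 1) * Nat.gcd m (finrank ℚ K) < finrank ℚ K

/-- `E/K` is a quadratic extension with few real places, or a Galois extension with an elementary abelian
`2`-group all of whose quadratic subextensions have few real places. -/
def Admissible (K E : Type) [Field K] [NumberField K] [Field E] [NumberField E] [Algebra K E] :
    Prop :=
  (finrank K E = 2 ∧ FewReal K E) ∨
  (IsGalois K E ∧ (∀ g : E ≃ₐ[K] E, g * g = 1) ∧
    ∀ F : IntermediateField K E, finrank K F = 2 → FewReal K F)

/-- `K` is generated by a root of `q`. -/
def RootField (K : Type) [Field K] [NumberField K] (q : ℚ[X]) : Prop :=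
  ∃ θ : K, aeval θ q = 0 ∧ IntermediateField.adjoin ℚ {θ} = ⊤

/-- The polynomial `f_t = ∏ (Y - a_i t) ∏ ((Y - b_k t)² + c_k t²) - 1`. -/
noncomputable def member {r₁ r₂ : ℕ} (a : Fin r₁ → ℤ) (b c : Fin r₂ → ℤ) (t : ℤ) : ℚ[X] :=
  (∏ i, (X - C ((a i * t : ℤ) : ℚ))) *
    (∏ k, ((X - C ((b k * t : ℤ) : ℚ)) ^ 2 + C ((c k * t ^ 2 : ℤ) : ℚ))) - 1

/-- The parameters of a family: distinct `a_i`, distinct pairs `(b_k, c_k)`, `c_k > 0`. -/
def Parameters {r₁ r₂ : ℕ} (a : Fin r₁ → ℤ) (b c : Fin r₂ → ℤ) : Prop :=
  1 ≤ r₁ + r₂ ∧ Function.Injective a ∧ Function.Injective (fun k => (b k, c k)) ∧ ∀ k, 0 < c k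

theorem member_eq {r₁ r₂ : ℕ} (a : Fin r₁ → ℤ) (b c : Fin r₂ → ℤ) (t : ℤ) :
    ratPoly (Pool.Agent.H33R4.spec t (Pool.Agent.H33R4.fam a b c)) = member a b c t := by
  unfold ratPoly member Pool.Agent.H33R4.fam Pool.Agent.H33R4.spec
  rw [Polynomial.map_sub, Polynomial.map_sub, Polynomial.map_one, Polynomial.map_one,
    Polynomial.map_prod, Polynomial.map_prod, Fintype.prod_sum_type]
  congr 2
  · refine Finset.prod_congr rfl fun i _ => ?_
    simp [Pool.Agent.H33R4.fac]
  · refine Finset.prod_congr rfl fun i _ => ?_
    simp [Pool.Agent.H33R4.fac]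

theorem adm {K E : Type} [Field K] [NumberField K] [Field E] [NumberField E] [Algebra K E]
    (h : Admissible K E) (p : ℕ) [Fact p.Prime] : Leopoldt E p ↔ Leopoldt K p := by
  rcases h with ⟨h2, h⟩ | ⟨hgal, hexp, hF⟩
  · have : Algebra.IsQuadraticExtension K E := ⟨h2⟩
    exact Pool.Agent.U332.LC.leopoldt_quad h p
  · exact Pool.Agent.U332.LC.leopoldt_multi hexp hF p

/-- **Leopoldt's conjecture for quadratic extensions with few real places.**

1. If `E/K` is admissible, then for every prime `p` Leopoldt's conjecture holds for `E` and `p` if and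
only if it holds for `K` and `p`.

2. Every quadratic extension of a totally real field `K` of degree at most `3` is admissible, if it is
not totally real.

3. Let `f_t` be one of the families. For every prime `p` and all but finitely many `t`: `f_t` is
irreducible, its root field `K` has `r₁` real and `r₂` complex places, and Leopoldt's conjecture holds
for `p` and all admissible extensions `E/K`; if `r₁ ≤ 3` and `r₂ = 0`, it holds for `p` and all
quadratic extensions of `K` that are not totally real.

4. There are a polynomial `Δ ≠ 0` and a number `C₀` such that for all `P` and all `t` outside a set of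
at most `C₀ + (r₁ + r₂ - 1)² P²` integers, Leopoldt's conjecture holds for all admissible extensions
`E/K` of the root field `K` of `f_t` and all the primes `p ≤ P` which do not divide `Δ(t)`. -/
theorem result :
    (∀ (K E : Type) [Field K] [NumberField K] [Field E] [NumberField E] [Algebra K E],
      Admissible K E → ∀ (p : ℕ) [Fact p.Prime], Leopoldt E p ↔ Leopoldt K p) ∧
    (∀ (K E : Type) [Field K] [NumberField K] [Field E] [NumberField E] [Algebra K E],
      IsTotallyReal K → finrank ℚ K ≤ 3 → finrank K E = 2 → ¬ IsTotallyReal E →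
      Admissible K E) ∧
    ∀ (r₁ r₂ : ℕ) (a : Fin r₁ → ℤ) (b c : Fin r₂ → ℤ), Parameters a b c →
      (∀ (p : ℕ) [Fact p.Prime], ∃ S : Finset ℤ, ∀ t ∉ S, Irreducible (member a b c t) ∧
        ∀ (K : Type) [Field K] [NumberField K], RootField K (member a b c t) →
          InfinitePlace.nrRealPlaces K = r₁ ∧ InfinitePlace.nrComplexPlaces K = r₂ ∧
          ∀ (E : Type) [Field E] [NumberField E] [Algebra K E],
            (Admissible K E → Leopoldt E p) ∧
            (r₁ ≤ 3 → r₂ = 0 → finrank K E = 2 → ¬ IsTotallyReal E → Leopoldt E p)) ∧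
      ∃ (Δ : ℤ[X]) (C₀ : ℕ), Δ ≠ 0 ∧ ∀ P : ℕ, ∃ S : Finset ℤ,
        S.card ≤ C₀ + (r₁ + r₂ - 1) ^ 2 * P ^ 2 ∧ ∀ t ∉ S,
        ∀ (K : Type) [Field K] [NumberField K], RootField K (member a b c t) →
        ∀ (E : Type) [Field E] [NumberField E] [Algebra K E], Admissible K E →
        ∀ (p : ℕ) [Fact p.Prime], p ≤ P → ¬ (p : ℤ) ∣ Δ.eval t → Leopoldt E p := by
  have hthree : ∀ (K E : Type) [Field K] [NumberField K] [Field E] [NumberField E] [Algebra K E],
      IsTotallyReal K → finrank ℚ K ≤ 3 → finrank K E = 2 → ¬ IsTotallyReal E →
      Admissible K E := by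
    intro K E _ _ _ _ _ hK h3 h2 hE
    have : Algebra.IsQuadraticExtension K E := ⟨h2⟩
    exact Or.inl ⟨h2, Pool.Agent.U332.LC.few_three h3 hE⟩
  refine ⟨fun K E _ _ _ _ _ h p _ => adm h p, hthree, ?_⟩
  rintro r₁ r₂ a b c ⟨h, ha, hbc, hc⟩
  constructor
  · intro p _
    obtain ⟨S, hS⟩ := Pool.Agent.H33R4.explicit p r₁ r₂ h a b c ha hbc hc
    refine ⟨S, fun t ht => ⟨?_, ?_⟩⟩
    · rw [← member_eq]
      exact Pool.Agent.U332.LC.ratPoly_irr ((Pool.Agent.H33R4.fam_monic a b c h).map _)
        (hS t ht).1
    · rintro K _ _ ⟨θ, hθ, hgen⟩
      rw [← member_eq, Pool.Agent.U332.LC.ratPoly_aeval] at hθ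
      obtain ⟨h1, h2, h3⟩ := (hS t ht).2 K θ hθ hgen
      refine ⟨h1, h2, fun E _ _ _ => ⟨fun hE => (adm hE p).2 h3, fun h4 h5 h6 h7 => ?_⟩⟩
      refine (adm (hthree K E ?_ ?_ h6 h7) p).2 h3
      · exact nrComplexPlaces_eq_zero_iff.1 (h2.trans h5)
      · rw [← InfinitePlace.card_add_two_mul_card_eq_rank K, h1, h2, h5]
        omega
  · obtain ⟨Δ, C₀, hΔ, hmain⟩ := Pool.Agent.R89.UP.main r₁ r₂ h a b c ha hbc hc
    refine ⟨Δ, C₀, hΔ, fun P => ?_⟩
    obtain ⟨S, hS1, hS2⟩ := hmain P
    refine ⟨S, hS1, fun t ht K _ _ hroot E _ _ _ hE p _ hp hnd => ?_⟩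
    obtain ⟨θ, hθ, hgen⟩ := hroot
    rw [← member_eq, Pool.Agent.U332.LC.ratPoly_aeval] at hθ
    exact (adm hE p).2 (((hS2 t ht).2 K θ hθ hgen).2.2 p hp hnd)

end Pool.Agent.Results.MP_5f2860_nt.QuadraticExtensions
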